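import Pool.Agent.Q264.LK.Stm

/-!
# Project LK (helper264): DECR, comparison of the probabilities
-/

set_option autoImplicit false

open Finset MeasureTheory Filter Topology
open scoped Classical

namespace Pool.Agent.Q153.LKC

open Pool.Agent.Q264.LK

/-! ### Expectations -/

section ep

variable {V : Type} [Fintype V] {p : ℝ}

theorem Ep_mono (h0 : 0 ≤ p) (h1 : p ≤ 1) {F G : Finset V → ℝ} (h : ∀ B, F B ≤ G B) : Ep p F ≤ Ep p G :=
  Finset.sum_le_sum fun B _ => mul_le_mul_of_nonneg_left (h B)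
    (mul_nonneg (pow_nonneg h0 _) (pow_nonneg (sub_nonneg.2 h1) _))

theorem Ep_add (F G : Finset V → ℝ) : Ep p (fun B => F B + G B) = Ep p F + Ep p G := by
  unfold Ep
  rw [← Finset.sum_add_distrib]
  exact Finset.sum_congr rfl fun B _ => by ring

theorem Ep_const (hMOM : S_MOM) (c : ℝ) : Ep p (fun _ : Finset V => c) = c := by
  have h1 := (hMOM V p).2.1
  have h2 : Ep p (fun _ : Finset V => c) = c * Ep p (fun _ : Finset V => (1 : ℝ)) := by
    unfold Ep
    rw [Finset.mul_sum]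
    exact Finset.sum_congr rfl fun B _ => by ring
  rw [h2, h1, mul_one]

theorem Ep_sum {ι : Type} (s : Finset ι) (F : ι → Finset V → ℝ) :
    Ep p (fun B => ∑ i ∈ s, F i B) = ∑ i ∈ s, Ep p (F i) := by
  unfold Ep
  rw [Finset.sum_comm]
  exact Finset.sum_congr rfl fun B _ => by rw [Finset.mul_sum]

end ep

/-! ### Components -/

section comp

variable {V : Type} [Fintype V] {G : SimpleGraph V} {B : Finset V}

theorem mem_cl {u v : V} : u ∈ cl G B v ↔ (res G B).Reachable v u := by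
  unfold cl
  rw [Finset.mem_filter]
  exact ⟨fun h => h.2, fun h => ⟨Finset.mem_univ _, h⟩⟩

theorem self_cl (v : V) : v ∈ cl G B v := mem_cl.2 (SimpleGraph.Reachable.refl v)

theorem cl_eq {u v : V} (h : u ∈ cl G B v) : cl G B u = cl G B v := by
  rw [mem_cl] at h
  ext w
  rw [mem_cl, mem_cl]
  exact ⟨fun h' => h.trans h', fun h' => h.symm.trans h'⟩

omit [Fintype V] in
theorem walk_mem {v u : V} (w : (res G B).Walk v u) (hv : v ∈ B) : u ∈ B := by
  induction w with
  | nil => exact hv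
  | cons h _ ih => exact ih h.2.2

theorem cl_sub {v : V} (hv : v ∈ B) : cl G B v ⊆ B := by
  intro u hu
  rw [mem_cl] at hu
  obtain ⟨w⟩ := hu
  exact walk_mem w hv

theorem walk_conn {v a b : V} (w : (res G B).Walk a b) (ha : a ∈ cl G B v) :
    (res G (cl G B v)).Reachable a b := by
  induction w with
  | nil => exact SimpleGraph.Reachable.refl _
  | cons h _ ih =>
    have ha' : _ ∈ cl G B v := mem_cl.2 ((mem_cl.1 ha).trans h.reachable)
    have h1 : (res G (cl G B v)).Adj _ _ := ⟨h.1, ha, ha'⟩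
    exact h1.reachable.trans (ih ha')

theorem cl_conn {v a b : V} (ha : a ∈ cl G B v) (hb : b ∈ cl G B v) :
    (res G (cl G B v)).Reachable a b := by
  have h1 : (res G B).Reachable a b := (mem_cl.1 ha).symm.trans (mem_cl.1 hb)
  obtain ⟨w⟩ := h1
  exact walk_conn w ha

theorem cl_bd {v : V} (hv : v ∈ B) : Disjoint (bd G (cl G B v)) B := by
  rw [Finset.disjoint_left]
  intro w hw hwB
  unfold bd at hw
  rw [Finset.mem_filter] at hw
  obtain ⟨-, hwS, s, hs, hsw⟩ := hw
  apply hwS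
  have h1 : (res G B).Adj s w := ⟨hsw, cl_sub hv hs, hwB⟩
  exact mem_cl.2 ((mem_cl.1 hs).trans h1.reachable)

theorem walk_stay {S : Finset V} (hbd : Disjoint (bd G S) B) {a b : V} (w : (res G B).Walk a b)
    (ha : a ∈ S) : b ∈ S := by
  induction w with
  | nil => exact ha
  | cons h _ ih =>
    apply ih
    by_contra hn
    refine Finset.disjoint_left.1 hbd ?_ h.2.2
    exact Finset.mem_filter.2 ⟨Finset.mem_univ _, hn, _, ha, h.1⟩

theorem eq_cl {S : Finset V} (hSB : S ⊆ B) (hconn : ∀ u ∈ S, ∀ v ∈ S, (res G S).Reachable u v)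
    (hbd : Disjoint (bd G S) B) {v : V} (hv : v ∈ S) : cl G B v = S := by
  ext u
  constructor
  · intro hu
    rw [mem_cl] at hu
    obtain ⟨w⟩ := hu
    exact walk_stay hbd w hv
  · intro hu
    rw [mem_cl]
    have hle : res G S ≤ res G B := fun a b h => ⟨h.1, hSB h.2.1, hSB h.2.2⟩
    exact (hconn v hv u hu).mono hle

theorem cl_disj {C C' : Finset V} (hC : C ∈ B.image (cl G B)) (hC' : C' ∈ B.image (cl G B)) (hne : C ≠ C') :
    Disjoint C C' := by
  obtain ⟨v, hv, rfl⟩ := Finset.mem_image.1 hC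
  obtain ⟨v', hv', rfl⟩ := Finset.mem_image.1 hC'
  rw [Finset.disjoint_left]
  intro u hu hu'
  exact hne ((cl_eq hu).symm.trans (cl_eq hu'))

omit [Fintype V] in
/-- disjoint sets with a marked element each -/
theorem card_marked (F : Finset (Finset V)) (hF : ∀ C ∈ F, ∀ C' ∈ F, C ≠ C' → Disjoint C C') (O : Finset V)
    (hO : ∀ C ∈ F, ∃ u ∈ C, u ∈ O) : F.card ≤ O.card := by
  rcases F.eq_empty_or_nonempty with rfl | ⟨C₀, hC₀⟩
  · exact Nat.zero_le _
  obtain ⟨u₀, -, -⟩ := hO C₀ hC₀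
  have : Nonempty V := ⟨u₀⟩
  choose! m hm1 hm2 using hO
  refine Finset.card_le_card_of_injOn m (fun C hC => hm2 C hC) ?_
  intro C hC C' hC' h
  by_contra hne
  exact Finset.disjoint_left.1 (hF C hC C' hC' hne) (hm1 C hC) (h ▸ hm1 C' hC')

/-- disjoint large sets -/
theorem card_large (F : Finset (Finset V)) (hF : ∀ C ∈ F, ∀ C' ∈ F, C ≠ C' → Disjoint C C') (R : ℕ)
    (hR : ∀ C ∈ F, R < C.card) : F.card * R ≤ Fintype.card V := by
  have h1 : (F.biUnion id).card = ∑ C ∈ F, C.card :=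
    Finset.card_biUnion fun C hC C' hC' hne => hF C hC C' hC' hne
  calc F.card * R = ∑ C ∈ F, R := by rw [Finset.sum_const, smul_eq_mul]
    _ ≤ ∑ C ∈ F, C.card := Finset.sum_le_sum fun C hC => (hR C hC).le
    _ = (F.biUnion id).card := h1.symm
    _ ≤ Fintype.card V := Finset.card_le_univ _

end comp

/-! ### The function -/

theorem anti {a b : ℕ} {x y : ℝ} (h0 : (a : ℝ) / (a + b) ≤ x) (hxy : x ≤ y) (hy : y ≤ 1) (ha : 1 ≤ a)
    (hb : 1 ≤ b) : y ^ a * (1 - y) ^ b ≤ x ^ a * (1 - x) ^ b := by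
  have ha' : (1 : ℝ) ≤ a := by exact_mod_cast ha
  have hb' : (1 : ℝ) ≤ b := by exact_mod_cast hb
  have hab : (0 : ℝ) < a + b := by linarith
  have hd : ∀ t : ℝ, HasDerivAt (fun t : ℝ => t ^ a * (1 - t) ^ b)
      ((a * t ^ (a - 1)) * (1 - t) ^ b + t ^ a * ((b * (1 - t) ^ (b - 1)) * (-1))) t := by
    intro t
    have h1 : HasDerivAt (fun t : ℝ => 1 - t) (-1) t := (hasDerivAt_id t).const_sub 1
    exact (hasDerivAt_pow a t).mul (h1.pow b)
  have hanti : AntitoneOn (fun t : ℝ => t ^ a * (1 - t) ^ b) (Set.Icc ((a : ℝ) / (a + b)) 1) := by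
    refine antitoneOn_of_deriv_nonpos (convex_Icc _ _) ?_ ?_ ?_
    · exact fun t _ => (hd t).continuousAt.continuousWithinAt
    · exact fun t _ => (hd t).differentiableAt.differentiableWithinAt
    · intro t ht
      rw [interior_Icc] at ht
      rw [(hd t).deriv]
      have h2 : (a : ℝ) < t * (a + b) := (div_lt_iff₀ hab).1 ht.1
      have h3 : 0 < t := lt_trans (by positivity) ht.1
      have h4 : 0 ≤ 1 - t := by linarith [ht.2]
      obtain ⟨a', rfl⟩ : ∃ a', a = a' + 1 := ⟨a - 1, by omega⟩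
      obtain ⟨b', rfl⟩ : ∃ b', b = b' + 1 := ⟨b - 1, by omega⟩
      rw [Nat.add_sub_cancel, Nat.add_sub_cancel]
      have h5 : (((a' + 1 : ℕ) : ℝ) * t ^ a') * (1 - t) ^ (b' + 1) + t ^ (a' + 1) *
          ((((b' + 1 : ℕ) : ℝ) * (1 - t) ^ b') * (-1)) =
          -(t ^ a' * (1 - t) ^ b' * (t * (((a' + 1 : ℕ) : ℝ) + ((b' + 1 : ℕ) : ℝ)) - ((a' + 1 : ℕ) : ℝ))) := by
        ring
      rw [h5]
      have h6 : 0 ≤ t ^ a' * (1 - t) ^ b' := by positivity
      have h7 := mul_nonneg h6 (sub_nonneg.2 h2.le)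
      linarith
  exact hanti ⟨h0, hxy.trans hy⟩ ⟨h0.trans hxy, hy⟩ hxy

/-! ### The general statement -/

section gen

variable {V : Type} [Fintype V]

/-- small connected sets of inner vertices -/
noncomputable def SS (G : SimpleGraph V) (inn : V → Prop) (R0 : ℕ) : Finset (Finset V) :=
  univ.filter fun S => S.Nonempty ∧ S.card ≤ R0 ∧
    (∀ u ∈ S, ∀ v ∈ S, (res G S).Reachable u v) ∧ ∀ u ∈ S, inn u

/-- the components in `SS` -/
noncomputable def FS (G : SimpleGraph V) (inn : V → Prop) (R0 : ℕ) (B : Finset V) : Finset (Finset V) :=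
  (SS G inn R0).filter fun S => S ⊆ B ∧ Disjoint (bd G S) B

theorem FS_sub (G : SimpleGraph V) (inn : V → Prop) (R0 : ℕ) (B : Finset V) :
    FS G inn R0 B ⊆ B.image (cl G B) := by
  intro S hS
  unfold FS SS at hS
  rw [Finset.mem_filter, Finset.mem_filter] at hS
  obtain ⟨⟨-, ⟨v, hv⟩, -, hconn, -⟩, hSB, hbd⟩ := hS
  exact Finset.mem_image.2 ⟨v, hSB hv, eq_cl hSB hconn hbd hv⟩

theorem upper (G : SimpleGraph V) (inn : V → Prop) {R0 M : ℕ} (hR : 1 ≤ R0)
    (hM : (univ.filter fun u : V => ¬ inn u).card ≤ M) (B : Finset V) :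
    ((B.image (cl G B)).card : ℝ) ≤ (Fintype.card V : ℝ) / R0 + M + ((FS G inn R0 B).card : ℝ) := by
  set I := B.image (cl G B) with hI
  set I1 := I.filter fun C => R0 < C.card with hI1
  set I2 := I.filter fun C => ∃ u ∈ C, ¬ inn u with hI2
  have hsub : I ⊆ (I1 ∪ I2) ∪ FS G inn R0 B := by
    intro C hC
    by_cases h1 : R0 < C.card
    · exact Finset.mem_union_left _ (Finset.mem_union_left _ (Finset.mem_filter.2 ⟨hC, h1⟩))
    by_cases h2 : ∃ u ∈ C, ¬ inn u
    · exact Finset.mem_union_left _ (Finset.mem_union_right _ (Finset.mem_filter.2 ⟨hC, h2⟩))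
    push Not at h2
    refine Finset.mem_union_right _ ?_
    obtain ⟨v, hv, rfl⟩ := Finset.mem_image.1 hC
    unfold FS SS
    rw [Finset.mem_filter, Finset.mem_filter]
    exact ⟨⟨Finset.mem_univ _, ⟨v, self_cl v⟩, not_lt.1 h1, fun a ha b hb => cl_conn ha hb, h2⟩,
      cl_sub hv, cl_bd hv⟩
  have h1 : (I1.card : ℝ) ≤ (Fintype.card V : ℝ) / R0 := by
    have h2 := card_large I1 (fun C hC C' hC' => cl_disj (Finset.mem_filter.1 hC).1 (Finset.mem_filter.1 hC').1)
      R0 (fun C hC => (Finset.mem_filter.1 hC).2)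
    have hR' : (0 : ℝ) < R0 := by exact_mod_cast hR
    rw [le_div_iff₀ hR']
    exact_mod_cast h2
  have h2 : (I2.card : ℝ) ≤ M := by
    have h3 := card_marked I2 (fun C hC C' hC' => cl_disj (Finset.mem_filter.1 hC).1 (Finset.mem_filter.1 hC').1)
      (univ.filter fun u : V => ¬ inn u) (fun C hC => by
        obtain ⟨u, hu, hu2⟩ := (Finset.mem_filter.1 hC).2
        exact ⟨u, hu, Finset.mem_filter.2 ⟨Finset.mem_univ _, hu2⟩⟩)
    exact_mod_cast h3.trans hM
  have h3 : (I.card : ℝ) ≤ (I1.card : ℝ) + I2.card + (FS G inn R0 B).card := by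
    have h4 := (Finset.card_le_card hsub).trans (Finset.card_union_le _ _)
    have h5 := Finset.card_union_le I1 I2
    have h6 : I.card ≤ I1.card + I2.card + (FS G inn R0 B).card := by omega
    exact_mod_cast h6
  linarith

theorem Ep_FS (hMOM : S_MOM) (G : SimpleGraph V) (inn : V → Prop) (R0 : ℕ) (p : ℝ) :
    Ep p (fun B : Finset V => ((FS G inn R0 B).card : ℝ)) =
      ∑ S ∈ SS G inn R0, p ^ S.card * (1 - p) ^ (bd G S).card := by
  have h1 : (fun B : Finset V => ((FS G inn R0 B).card : ℝ)) = fun B =>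
      ∑ S ∈ SS G inn R0, if S ⊆ B ∧ Disjoint (bd G S) B then (1 : ℝ) else 0 := by
    funext B
    unfold FS
    rw [Finset.card_filter]
    push_cast
    rfl
  rw [h1, Ep_sum]
  refine Finset.sum_congr rfl fun S _ => ?_
  refine (hMOM V p).1 S (bd G S) ?_
  rw [Finset.disjoint_left]
  intro u hu hu'
  exact (Finset.mem_filter.1 hu').2.1 hu

theorem gen (hBR : S_BR) (hMOM : S_MOM) (G : SimpleGraph V) (inn : V → Prop) {R0 M : ℕ} (hR : 1 ≤ R0)
    (hM : (univ.filter fun u : V => ¬ inn u).card ≤ M) (β : ℕ → ℕ)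
    (hβ : ∀ S : Finset V, S.Nonempty → S.card ≤ R0 → (∀ u ∈ S, ∀ v ∈ S, (res G S).Reachable u v) →
      (∀ u ∈ S, inn u) → (bd G S).card = β S.card) {p p' : ℝ} (hp'0 : 0 ≤ p') (hp : p' ≤ p) (hp1 : p ≤ 1)
    (hmon : ∀ j, 1 ≤ j → j ≤ R0 → p ^ j * (1 - p) ^ β j ≤ p' ^ j * (1 - p') ^ β j) :
    ECC G p ≤ (Fintype.card V : ℝ) / R0 + M + ECC G p' := by
  have hp'1 : p' ≤ 1 := hp.trans hp1
  have hp0 : 0 ≤ p := hp'0.trans hp
  have h1 : ECC G p ≤ (Fintype.card V : ℝ) / R0 + M +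
      ∑ S ∈ SS G inn R0, p ^ S.card * (1 - p) ^ (bd G S).card := by
    rw [← Ep_FS hMOM G inn R0 p]
    unfold ECC
    refine (Ep_mono hp0 hp1 (G := fun B => ((Fintype.card V : ℝ) / R0 + M) +
      ((FS G inn R0 B).card : ℝ)) fun B => ?_).trans (le_of_eq ?_)
    · rw [hBR]
      exact upper G inn hR hM B
    · rw [Ep_add, Ep_const hMOM]
  have h2 : ∑ S ∈ SS G inn R0, p' ^ S.card * (1 - p') ^ (bd G S).card ≤ ECC G p' := by
    rw [← Ep_FS hMOM G inn R0 p']
    unfold ECC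
    refine Ep_mono hp'0 hp'1 fun B => ?_
    rw [hBR]
    exact_mod_cast Finset.card_le_card (FS_sub G inn R0 B)
  have h3 : ∑ S ∈ SS G inn R0, p ^ S.card * (1 - p) ^ (bd G S).card ≤
      ∑ S ∈ SS G inn R0, p' ^ S.card * (1 - p') ^ (bd G S).card := by
    refine Finset.sum_le_sum fun S hS => ?_
    unfold SS at hS
    rw [Finset.mem_filter] at hS
    obtain ⟨-, hne, hcard, hconn, hinn⟩ := hS
    rw [hβ S hne hcard hconn hinn]
    exact hmon _ (Finset.card_pos.2 hne) hcard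
  linarith

end gen

/-! ### The job -/

theorem outer_card {T : ℕ} {Γ : Type} [Fintype Γ] (inn : Fin (T + 1) × Γ → Prop)
    (h : ∀ u, ¬ inn u → u.1 = 0 ∨ u.1 = Fin.last T) :
    (univ.filter fun u : Fin (T + 1) × Γ => ¬ inn u).card ≤ 2 * Fintype.card Γ := by
  have h1 : (univ.filter fun u : Fin (T + 1) × Γ => ¬ inn u) ⊆
      ({0, Fin.last T} : Finset (Fin (T + 1))) ×ˢ (univ : Finset Γ) := by
    intro u hu
    rw [Finset.mem_filter] at hu
    rw [Finset.mem_product]
    refine ⟨?_, Finset.mem_univ _⟩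
    rw [Finset.mem_insert, Finset.mem_singleton]
    exact h u hu.2
  calc _ ≤ _ := Finset.card_le_card h1
    _ = ({0, Fin.last T} : Finset (Fin (T + 1))).card * Fintype.card Γ := by
      rw [Finset.card_product, Finset.card_univ]
    _ ≤ _ := Nat.mul_le_mul_right _ Finset.card_le_two

theorem t_DECR (hBR : S_BR) (hMOM : S_MOM) (hBND : S_BND) : S_DECR := by
  intro k T R0 Γ _ π p hk hR hπ hg hp hp1
  have hk' : (1 : ℝ) ≤ k := by exact_mod_cast hk
  have hR' : (1 : ℝ) ≤ R0 := by exact_mod_cast hR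
  have hden : 0 < (R0 : ℝ) * (2 * k - 1) + 2 := by
    have : (0 : ℝ) ≤ R0 * (2 * k - 1) := mul_nonneg (by linarith) (by linarith)
    linarith
  have h := gen hBR hMOM (lay k T π) (fun u => 0 < u.1.val ∧ u.1.val < T) hR
    (outer_card _ fun u hu => by
      have h3 := u.1.isLt
      by_cases h4 : u.1.val = 0
      · exact Or.inl (Fin.ext h4)
      · right
        apply Fin.ext
        rw [Fin.val_last]
        by_contra h5
        exact hu ⟨by omega, by omega⟩)
    (fun j => (2 * k - 2) * j + 2)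
    (fun S hne hcard hconn hinn => hBND k T R0 Γ π S hk hπ hg hne hcard hconn hinn)
    (p := p) (p' := (R0 : ℝ) / (R0 * (2 * k - 1) + 2)) (div_nonneg (by linarith) hden.le) hp hp1
    (fun j hj hjR => ?_)
  · rw [Nat.cast_mul, Nat.cast_ofNat] at h
    exact h
  · refine anti ?_ hp hp1 hj (by omega)
    have hc1' : (1 : ℝ) ≤ j := by exact_mod_cast hj
    have hcR : (j : ℝ) ≤ R0 := by exact_mod_cast hjR
    have e1 : (((2 * k - 2) * j + 2 : ℕ) : ℝ) = (2 * k - 2) * j + 2 := by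
      have : 2 ≤ 2 * k := by omega
      push_cast [Nat.cast_sub this]
      ring
    rw [e1]
    have hden2 : 0 < (j : ℝ) + ((2 * k - 2) * j + 2) := by
      have : (0 : ℝ) ≤ (2 * k - 2) * j := mul_nonneg (by linarith) (by linarith)
      linarith
    rw [div_le_div_iff₀ hden2 hden]
    nlinarith

end Pool.Agent.Q153.LKC
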