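import Pool.Agent.Q264.LK.Stm

/-!
# Project LK (helper264): MKD, a clique and copies of the layered graph
-/

set_option autoImplicit false

open Finset MeasureTheory Filter Topology
open scoped Classical

namespace Pool.Agent.Q153.LKC

open Pool.Agent.Q264.LK

/-- transport of degeneracy along a bijection -/
theorem kdeg_comap {k : ℕ} {V W : Type} (e : V ≃ W) {G : SimpleGraph W} (h : KDeg k G) :
    KDeg k (G.comap e) := by
  intro S hS
  obtain ⟨w, hw, hw2⟩ := h (S.map e.toEmbedding) (hS.map)
  obtain ⟨v, hv, rfl⟩ := Finset.mem_map.1 hw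
  refine ⟨v, hv, le_trans ?_ hw2⟩
  refine Finset.card_le_card_of_injOn e ?_ e.injective.injOn
  intro u hu
  rw [Finset.mem_coe, Finset.mem_filter] at hu ⊢
  exact ⟨Finset.mem_map_of_mem _ hu.1, hu.2⟩

theorem max_comap {k : ℕ} {V W : Type} (e : V ≃ W) {G : SimpleGraph W} (h : MaxKDeg k G) :
    MaxKDeg k (G.comap e) := by
  refine ⟨kdeg_comap e h.1, fun H hle hH => ?_⟩
  have h1 : G ≤ H.comap e.symm := by
    intro a b hab
    have h2 : (G.comap e).Adj (e.symm a) (e.symm b) := by
      show G.Adj (e (e.symm a)) (e (e.symm b))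
      rw [e.apply_symm_apply, e.apply_symm_apply]
      exact hab
    exact hle h2
  have h2 := h.2 _ h1 (kdeg_comap e.symm hH)
  ext a b
  show H.Adj a b ↔ G.Adj (e a) (e b)
  rw [← h2]
  show H.Adj a b ↔ H.Adj (e.symm (e a)) (e.symm (e b))
  rw [e.symm_apply_apply, e.symm_apply_apply]

/-- the vertices -/
abbrev VV (k L T : ℕ) (Γ : Type) : Type := Fin k ⊕ (Fin L × (Fin (T + 1) × Γ))

/-- the graph -/
abbrev GG (k L T : ℕ) {Γ : Type} (π : Fin k → Equiv.Perm Γ) : SimpleGraph (VV k L T Γ) :=
  BL k L (lay k T π) fun w => w.1 = 0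

/-- the edges directed down -/
def Dn (k L T : ℕ) {Γ : Type} (π : Fin k → Equiv.Perm Γ) : VV k L T Γ → VV k L T Γ → Prop
  | .inl a, .inl b => b < a
  | .inl _, .inr _ => False
  | .inr x, .inl _ => x.2.1 = 0
  | .inr x, .inr y => x.1 = y.1 ∧ x.2.1.val = y.2.1.val + 1 ∧ ∃ j, x.2.2 = π j y.2.2

variable {k L T : ℕ} {Γ : Type} {π : Fin k → Equiv.Perm Γ}

theorem adj_iff (v w : VV k L T Γ) : (GG k L T π).Adj v w ↔ Dn k L T π v w ∨ Dn k L T π w v := by
  rcases v with a | x <;> rcases w with b | y
  · show a ≠ b ↔ b < a ∨ a < b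
    rw [ne_iff_lt_or_gt, or_comm]
  · show y.2.1 = 0 ↔ False ∨ y.2.1 = 0
    rw [false_or]
  · show x.2.1 = 0 ↔ x.2.1 = 0 ∨ False
    rw [or_false]
  · show x.1 = y.1 ∧ ((y.2.1.val = x.2.1.val + 1 ∧ ∃ j, y.2.2 = π j x.2.2) ∨
        (x.2.1.val = y.2.1.val + 1 ∧ ∃ j, x.2.2 = π j y.2.2)) ↔
      (x.1 = y.1 ∧ x.2.1.val = y.2.1.val + 1 ∧ ∃ j, x.2.2 = π j y.2.2) ∨
      (y.1 = x.1 ∧ y.2.1.val = x.2.1.val + 1 ∧ ∃ j, y.2.2 = π j x.2.2)
    constructor
    · rintro ⟨h, h1 | h1⟩
      · exact Or.inr ⟨h.symm, h1⟩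
      · exact Or.inl ⟨h, h1⟩
    · rintro (⟨h, h1⟩ | ⟨h, h1⟩)
      · exact ⟨h, Or.inr h1⟩
      · exact ⟨h.symm, Or.inl h1⟩

theorem dn_asymm (v w : VV k L T Γ) : Dn k L T π v w → ¬ Dn k L T π w v := by
  rcases v with a | x <;> rcases w with b | y
  · intro h h'
    exact lt_asymm (show b < a from h) h'
  · intro h
    exact h.elim
  · intro _ h'
    exact h'.elim
  · rintro ⟨-, h, -⟩ ⟨-, h', -⟩
    omega

/-- the lower neighbours of a vertex which is not central -/
noncomputable def low (π : Fin k → Equiv.Perm Γ) (x : Fin L × (Fin (T + 1) × Γ)) (j : Fin k) : VV k L T Γ :=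
  if x.2.1 = 0 then .inl j else .inr (x.1, (⟨x.2.1.val - 1, by omega⟩, (π j).symm x.2.2))

theorem dn_low (x : Fin L × (Fin (T + 1) × Γ)) (j : Fin k) : Dn k L T π (.inr x) (low π x j) := by
  unfold low
  by_cases h : x.2.1 = 0
  · rw [if_pos h]
    exact h
  · rw [if_neg h]
    refine ⟨rfl, ?_, j, ((π j).apply_symm_apply _).symm⟩
    have : x.2.1.val ≠ 0 := fun h' => h (Fin.ext h')
    show x.2.1.val = x.2.1.val - 1 + 1
    omega

theorem low_inj (hπ : ∀ x, Function.Injective fun j => π j x) (x : Fin L × (Fin (T + 1) × Γ)) :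
    Function.Injective (low π x) := by
  intro j j' h
  unfold low at h
  by_cases h0 : x.2.1 = 0
  · rw [if_pos h0, if_pos h0] at h
    exact Sum.inl_injective h
  · rw [if_neg h0, if_neg h0] at h
    have h1 := Sum.inr_injective h
    have h2 : (π j).symm x.2.2 = (π j').symm x.2.2 := congrArg (fun z => z.2.2) h1
    apply hπ ((π j).symm x.2.2)
    show π j ((π j).symm x.2.2) = π j' ((π j).symm x.2.2)
    rw [(π j).apply_symm_apply, h2, (π j').apply_symm_apply]

theorem kdeg_GG : KDeg k (GG k L T π) := by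
  intro S hS
  by_cases hc : ∃ x, (Sum.inr x : VV k L T Γ) ∈ S
  · have hfin : (S.filter fun v => ∃ x, v = Sum.inr x).Nonempty := by
      obtain ⟨x, hx⟩ := hc
      exact ⟨_, Finset.mem_filter.2 ⟨hx, x, rfl⟩⟩
    obtain ⟨v, hv, hmax⟩ := Finset.exists_max_image (S.filter fun v => ∃ x, v = Sum.inr x)
      (fun v : VV k L T Γ => Sum.elim (fun _ => 0) (fun x => x.2.1.val) v) hfin
    rw [Finset.mem_filter] at hv
    obtain ⟨hvS, x, rfl⟩ := hv
    refine ⟨_, hvS, ?_⟩
    have hsub : (S.filter fun w => (GG k L T π).Adj (Sum.inr x) w) ⊆ (univ : Finset (Fin k)).image (low π x) := by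
      intro w hw
      rw [Finset.mem_filter, adj_iff] at hw
      obtain ⟨hwS, hw⟩ := hw
      rcases w with b | y
      · rcases hw with h | h
        · refine Finset.mem_image.2 ⟨b, Finset.mem_univ _, ?_⟩
          unfold low
          rw [if_pos (show x.2.1 = 0 from h)]
        · exact h.elim
      · rcases hw with h | h
        · obtain ⟨h1, h2, j, h3⟩ := h
          refine Finset.mem_image.2 ⟨j, Finset.mem_univ _, ?_⟩
          unfold low
          rw [if_neg (by
            intro h0
            rw [h0] at h2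
            simp at h2)]
          congr 1
          refine Prod.ext h1 (Prod.ext (Fin.ext ?_) ?_)
          · show x.2.1.val - 1 = y.2.1.val
            omega
          · show (π j).symm x.2.2 = y.2.2
            rw [h3, Equiv.symm_apply_apply]
        · exfalso
          obtain ⟨h1, h2, -⟩ := h
          have h4 := hmax (Sum.inr y) (Finset.mem_filter.2 ⟨hwS, y, rfl⟩)
          have h5 : y.2.1.val ≤ x.2.1.val := h4
          omega
    calc _ ≤ _ := Finset.card_le_card hsub
      _ ≤ (univ : Finset (Fin k)).card := Finset.card_image_le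
      _ = k := by rw [Finset.card_univ, Fintype.card_fin]
  · obtain ⟨v, hv⟩ := hS
    refine ⟨v, hv, ?_⟩
    have hsub : (S.filter fun w => (GG k L T π).Adj v w) ⊆ (univ : Finset (Fin k)).image Sum.inl := by
      intro w hw
      rw [Finset.mem_filter] at hw
      rcases w with b | y
      · exact Finset.mem_image.2 ⟨b, Finset.mem_univ _, rfl⟩
      · exact absurd ⟨y, hw.1⟩ hc
    calc _ ≤ _ := Finset.card_le_card hsub
      _ ≤ (univ : Finset (Fin k)).card := Finset.card_image_le
      _ = k := by rw [Finset.card_univ, Fintype.card_fin]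

theorem dd_GG [Fintype Γ] (hπ : ∀ x, Function.Injective fun j => π j x) :
    2 * k * (univ : Finset (VV k L T Γ)).card ≤ dd (GG k L T π) univ + k * (k + 1) := by
  have h1 : dd (GG k L T π) univ = 2 * ∑ v : VV k L T Γ, (univ.filter fun w => Dn k L T π v w).card := by
    unfold dd
    have h2 : ∀ v : VV k L T Γ, (univ.filter fun w => (GG k L T π).Adj v w).card =
        (univ.filter fun w => Dn k L T π v w).card + (univ.filter fun w => Dn k L T π w v).card := by
      intro v
      rw [← Finset.card_union_of_disjoint]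
      · congr 1
        ext w
        rw [Finset.mem_union, Finset.mem_filter, Finset.mem_filter, Finset.mem_filter, adj_iff]
        simp
      · rw [Finset.disjoint_filter]
        intro w _ h
        exact dn_asymm _ _ h
    rw [Finset.sum_congr rfl fun v _ => h2 v, Finset.sum_add_distrib, two_mul]
    congr 1
    simp only [Finset.card_filter]
    rw [Finset.sum_comm]
  have h2 : ∑ a : Fin k, a.val + ∑ _x : Fin L × (Fin (T + 1) × Γ), k ≤
      ∑ v : VV k L T Γ, (univ.filter fun w => Dn k L T π v w).card := by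
    rw [Fintype.sum_sum_type]
    refine add_le_add (Finset.sum_le_sum fun a _ => ?_) (Finset.sum_le_sum fun x _ => ?_)
    · have h3 : ((Finset.Iio a).image (Sum.inl : Fin k → VV k L T Γ)) ⊆
          univ.filter fun w => Dn k L T π (Sum.inl a) w := by
        intro w hw
        obtain ⟨b, hb, rfl⟩ := Finset.mem_image.1 hw
        exact Finset.mem_filter.2 ⟨Finset.mem_univ _, Finset.mem_Iio.1 hb⟩
      have h4 := Finset.card_le_card h3
      rw [Finset.card_image_of_injective _ Sum.inl_injective, Fin.card_Iio] at h4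
      exact h4
    · have h3 : ((univ : Finset (Fin k)).image (low π x)) ⊆
          univ.filter fun w => Dn k L T π (Sum.inr x) w := by
        intro w hw
        obtain ⟨j, -, rfl⟩ := Finset.mem_image.1 hw
        exact Finset.mem_filter.2 ⟨Finset.mem_univ _, dn_low x j⟩
      have h4 := Finset.card_le_card h3
      rw [Finset.card_image_of_injective _ (low_inj hπ x), Finset.card_univ, Fintype.card_fin] at h4
      exact h4
  have h3 : (∑ a : Fin k, a.val) * 2 = k * (k - 1) := by
    rw [Fin.sum_univ_eq_sum_range (fun i => i) k, Finset.sum_range_id_mul_two]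
  have h4 : (univ : Finset (VV k L T Γ)).card = k + Fintype.card (Fin L × (Fin (T + 1) × Γ)) := by
    rw [Finset.card_univ, Fintype.card_sum, Fintype.card_fin]
  rw [Finset.sum_const, Finset.card_univ, smul_eq_mul] at h2
  rw [h1, h4]
  set m := Fintype.card (Fin L × (Fin (T + 1) × Γ))
  have h5 : k * (k - 1) + k * (k + 1) = 2 * k * k := by
    rcases Nat.eq_zero_or_pos k with h | h
    · rw [h]
    · obtain ⟨k', rfl⟩ : ∃ k', k = k' + 1 := ⟨k - 1, by omega⟩
      rw [Nat.add_sub_cancel]
      ring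
  calc 2 * k * (k + m) = (k * (k - 1) + k * (k + 1)) + 2 * (m * k) := by rw [h5]; ring
    _ = 2 * (∑ a : Fin k, a.val + m * k) + k * (k + 1) := by rw [← h3]; ring
    _ ≤ _ := by
      have := Nat.mul_le_mul_left 2 h2
      omega

theorem max_GG [Fintype Γ] (hEDGE : S_EDGE) (hπ : ∀ x, Function.Injective fun j => π j x) :
    MaxKDeg k (GG k L T π) := by
  refine ⟨kdeg_GG, fun H hle hH => ?_⟩
  have hk : k ≤ (univ : Finset (VV k L T Γ)).card := by
    rw [Finset.card_univ, Fintype.card_sum, Fintype.card_fin]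
    omega
  have h1 := hEDGE _ H k hH univ hk
  have h2 := dd_GG (L := L) (T := T) hπ
  have h3 : dd H univ ≤ dd (GG k L T π) univ := by omega
  have h4 : ∀ v : VV k L T Γ, (univ.filter fun w => (GG k L T π).Adj v w) ⊆ (univ.filter fun w => H.Adj v w) := by
    intro v w hw
    rw [Finset.mem_filter] at hw ⊢
    exact ⟨hw.1, hle hw.2⟩
  have h5 : ∀ v : VV k L T Γ, (univ.filter fun w => (GG k L T π).Adj v w) = (univ.filter fun w => H.Adj v w) := by
    intro v
    by_contra hne
    have h6 : (univ.filter fun w => (GG k L T π).Adj v w).card < (univ.filter fun w => H.Adj v w).card :=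
      Finset.card_lt_card (Finset.ssubset_iff_subset_ne.2 ⟨h4 v, hne⟩)
    have h7 : dd (GG k L T π) univ < dd H univ :=
      Finset.sum_lt_sum (fun w _ => Finset.card_le_card (h4 w)) ⟨v, Finset.mem_univ _, h6⟩
    omega
  ext v w
  have h6 := congrArg (fun s => w ∈ s) (h5 v)
  simp only [Finset.mem_filter, Finset.mem_univ, true_and, eq_iff_iff] at h6
  exact h6.symm

theorem t_MKD (hEDGE : S_EDGE) : S_MKD := by
  intro k L T n Γ _ π e hπ
  exact max_comap e (max_GG hEDGE hπ)

end Pool.Agent.Q153.LKC
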